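import Mathlib

set_option autoImplicit false
open Finset

namespace Pool.Agent.Helper988.AD

/-- a noncrossing family of arcs with end points in `[u, v)` has at most `2 (v - u)` members -/
lemma noncrossing (S : Finset (ℕ × ℕ)) (u v : ℕ)
    (hr : ∀ e ∈ S, u ≤ e.1 ∧ e.1 < e.2 ∧ e.2 < v)
    (hc : ∀ a ∈ S, ∀ b ∈ S, ¬ (a.1 < b.1 ∧ b.1 < a.2 ∧ a.2 < b.2)) :
    S.card ≤ 2 * (v - u) := by
  classical
  have h := Finset.card_filter_add_card_filter_not (s := S)
    (fun e => ∃ b ∈ S, b.1 = e.1 ∧ e.2 < b.2)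
  have h1 : (S.filter (fun e => ∃ b ∈ S, b.1 = e.1 ∧ e.2 < b.2)).card ≤ v - u := by
    rw [← Nat.card_Ico]
    apply Finset.card_le_card_of_injOn (fun e => e.2)
    · intro e he
      have he' := (mem_filter.1 he).1
      have := hr e he'
      simp only [coe_Ico, Set.mem_Ico]
      omega
    · intro e he e' he' hee
      have h1 := mem_filter.1 he
      have h2 := mem_filter.1 he'
      simp only at hee
      obtain ⟨b, hb, hb1, hb2⟩ := h1.2
      obtain ⟨b', hb', hb1', hb2'⟩ := h2.2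
      have r1 := hr e h1.1
      have r2 := hr e' h2.1
      have c1 := hc e h1.1 b' hb'
      have c2 := hc e' h2.1 b hb
      have : e.1 = e'.1 := by omega
      exact Prod.ext this hee
  have h2 : (S.filter (fun e => ¬ ∃ b ∈ S, b.1 = e.1 ∧ e.2 < b.2)).card ≤ v - u := by
    rw [← Nat.card_Ico]
    apply Finset.card_le_card_of_injOn (fun e => e.1)
    · intro e he
      have he' := (mem_filter.1 he).1
      have := hr e he'
      simp only [coe_Ico, Set.mem_Ico]
      omega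
    · intro e he e' he' hee
      have h1 := mem_filter.1 he
      have h2 := mem_filter.1 he'
      simp only at hee
      have n1 : ¬ e.2 < e'.2 := fun hl => h1.2 ⟨e', h2.1, hee.symm, hl⟩
      have n2 : ¬ e'.2 < e.2 := fun hl => h2.2 ⟨e, h1.1, hee, hl⟩
      have : e.2 = e'.2 := by omega
      exact Prod.ext hee this
  omega

/-- The combinatorial conditions on a family of triples `i < j < k`. -/
structure Fam (F : Finset (ℕ × ℕ × ℕ)) : Prop where
  lt : ∀ T ∈ F, T.1 < T.2.1 ∧ T.2.1 < T.2.2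
  e1 : ∀ T ∈ F, ∀ T' ∈ F, T.1 = T'.1 → T.2.1 = T'.2.1 → T = T'
  e2 : ∀ T ∈ F, ∀ T' ∈ F, T.2.1 = T'.2.1 → T.2.2 = T'.2.2 → T = T'
  c1 : ∀ T ∈ F, ∀ T' ∈ F, ¬ (T.1 < T'.1 ∧ T'.1 < T.2.1 ∧ T.2.1 < T'.2.1 ∧ T'.2.1 < T.2.2)
  c2 : ∀ T ∈ F, ∀ T' ∈ F, ¬ (T.1 < T'.2.1 ∧ T'.2.1 < T.2.1 ∧ T.2.1 < T'.2.2 ∧ T'.2.2 < T.2.2)

/-- members inside `[u, v)` -/
def C (F : Finset (ℕ × ℕ × ℕ)) (u v : ℕ) : Finset (ℕ × ℕ × ℕ) :=
  F.filter (fun T => u ≤ T.1 ∧ T.2.2 < v)

lemma left_bound {F : Finset (ℕ × ℕ × ℕ)} (hF : Fam F) (u m : ℕ) :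
    (F.filter (fun T => u ≤ T.1 ∧ T.2.1 < m ∧ m ≤ T.2.2)).card ≤ 2 * (m - u) := by
  classical
  set D := F.filter (fun T => u ≤ T.1 ∧ T.2.1 < m ∧ m ≤ T.2.2) with hD
  have hinj : Set.InjOn (fun T : ℕ × ℕ × ℕ => (T.1, T.2.1)) D := by
    intro T hT T' hT' h
    simp only [Prod.mk.injEq] at h
    exact hF.e1 T (mem_filter.1 hT).1 T' (mem_filter.1 hT').1 h.1 h.2
  rw [← Finset.card_image_of_injOn hinj]
  apply noncrossing
  · intro e he
    obtain ⟨T, hT, rfl⟩ := mem_image.1 he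
    have h1 := mem_filter.1 hT
    have h2 := hF.lt T h1.1
    exact ⟨h1.2.1, h2.1, h1.2.2.1⟩
  · intro a ha b hb
    obtain ⟨T, hT, rfl⟩ := mem_image.1 ha
    obtain ⟨T', hT', rfl⟩ := mem_image.1 hb
    have h1 := mem_filter.1 hT
    have h2 := mem_filter.1 hT'
    have h3 := hF.c1 T h1.1 T' h2.1
    simp only
    omega

lemma right_bound {F : Finset (ℕ × ℕ × ℕ)} (hF : Fam F) (m v : ℕ) :
    (F.filter (fun T => T.1 < m ∧ m ≤ T.2.1 ∧ T.2.2 < v)).card ≤ 2 * (v - m) := by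
  classical
  set D := F.filter (fun T => T.1 < m ∧ m ≤ T.2.1 ∧ T.2.2 < v) with hD
  have hinj : Set.InjOn (fun T : ℕ × ℕ × ℕ => (T.2.1, T.2.2)) D := by
    intro T hT T' hT' h
    simp only [Prod.mk.injEq] at h
    exact hF.e2 T (mem_filter.1 hT).1 T' (mem_filter.1 hT').1 h.1 h.2
  rw [← Finset.card_image_of_injOn hinj]
  apply noncrossing
  · intro e he
    obtain ⟨T, hT, rfl⟩ := mem_image.1 he
    have h1 := mem_filter.1 hT
    have h2 := hF.lt T h1.1
    exact ⟨h1.2.2.1, h2.2, h1.2.2.2⟩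
  · intro a ha b hb
    obtain ⟨T, hT, rfl⟩ := mem_image.1 ha
    obtain ⟨T', hT', rfl⟩ := mem_image.1 hb
    have h1 := mem_filter.1 hT
    have h2 := mem_filter.1 hT'
    have h3 := hF.c2 T' h2.1 T h1.1
    simp only
    omega

lemma step {F : Finset (ℕ × ℕ × ℕ)} (hF : Fam F) (u m v : ℕ) :
    (C F u v).card ≤ (C F u m).card + (C F m v).card + 2 * (m - u) + 2 * (v - m) := by
  classical
  have hsub : C F u v ⊆ ((C F u m) ∪ (C F m v)) ∪
      ((F.filter (fun T => u ≤ T.1 ∧ T.2.1 < m ∧ m ≤ T.2.2)) ∪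
        (F.filter (fun T => T.1 < m ∧ m ≤ T.2.1 ∧ T.2.2 < v))) := by
    intro T hT
    simp only [C, mem_filter] at hT
    simp only [C, mem_union, mem_filter]
    by_cases h1 : T.2.2 < m
    · left; left; exact ⟨hT.1, hT.2.1, h1⟩
    · by_cases h2 : m ≤ T.1
      · left; right; exact ⟨hT.1, h2, hT.2.2⟩
      · by_cases h3 : T.2.1 < m
        · right; left; exact ⟨hT.1, hT.2.1, h3, by omega⟩
        · right; right; exact ⟨hT.1, by omega, by omega, hT.2.2⟩
  have h := Finset.card_le_card hsub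
  have h1 := Finset.card_union_le ((C F u m) ∪ (C F m v))
      ((F.filter (fun T => u ≤ T.1 ∧ T.2.1 < m ∧ m ≤ T.2.2)) ∪
        (F.filter (fun T => T.1 < m ∧ m ≤ T.2.1 ∧ T.2.2 < v)))
  have h2 := Finset.card_union_le (C F u m) (C F m v)
  have h3 := Finset.card_union_le (F.filter (fun T => u ≤ T.1 ∧ T.2.1 < m ∧ m ≤ T.2.2))
        (F.filter (fun T => T.1 < m ∧ m ≤ T.2.1 ∧ T.2.2 < v))
  have h4 := left_bound hF u m
  have h5 := right_bound hF m v
  omega

lemma main_aux {F : Finset (ℕ × ℕ × ℕ)} (hF : Fam F) : ∀ w u v : ℕ, v - u = w →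
    (C F u v).card ≤ 2 * w * Nat.clog 2 w := by
  intro w
  induction w using Nat.strong_induction_on with
  | _ w ih =>
    intro u v hw
    by_cases h2 : w < 2
    · have : C F u v = ∅ := by
        rw [Finset.eq_empty_iff_forall_notMem]
        intro T hT
        simp only [C, mem_filter] at hT
        have := hF.lt T hT.1
        omega
      rw [this]
      simp
    · push Not at h2
      have hs := step hF u (u + (w + 1) / 2) v
      have i1 := ih ((w + 1) / 2) (by omega) u (u + (w + 1) / 2) (by omega)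
      have i2 := ih (w / 2) (by omega) (u + (w + 1) / 2) v (by omega)
      have hcl : Nat.clog 2 w = Nat.clog 2 ((w + 1) / 2) + 1 := by
        rw [Nat.clog_of_two_le (by norm_num) h2]
        rfl
      have hmono : Nat.clog 2 (w / 2) ≤ Nat.clog 2 ((w + 1) / 2) :=
        Nat.clog_mono_right 2 (by omega)
      set L := Nat.clog 2 ((w + 1) / 2)
      have e1 : u + (w + 1) / 2 - u = (w + 1) / 2 := by omega
      have e2 : v - (u + (w + 1) / 2) = w / 2 := by omega
      rw [e1, e2] at hs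
      rw [hcl]
      have i3 : 2 * (w / 2) * Nat.clog 2 (w / 2) ≤ 2 * (w / 2) * L :=
        Nat.mul_le_mul_left _ hmono
      have hsum : (w + 1) / 2 + w / 2 = w := by omega
      have : 2 * ((w + 1) / 2) * L + 2 * (w / 2) * L = 2 * w * L := by
        rw [← Nat.add_mul, ← Nat.mul_add, hsum]
      have h6 : 2 * w * (L + 1) = 2 * w * L + 2 * w := by ring
      rw [h6]
      omega

theorem fam_bound {F : Finset (ℕ × ℕ × ℕ)} (hF : Fam F) (n : ℕ) (hn : ∀ T ∈ F, T.2.2 < n) :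
    F.card ≤ 2 * n * Nat.clog 2 n := by
  have h : C F 0 n = F := by
    unfold C
    rw [Finset.filter_true_of_mem]
    intro T hT
    exact ⟨Nat.zero_le _, hn T hT⟩
  have := main_aux hF n 0 n (by omega)
  rwa [h] at this

end Pool.Agent.Helper988.AD
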