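import Mathlib

set_option autoImplicit false
open Finset

namespace Pool.Agent.Helper988.AD

/-- Euclidean three-space. -/
abbrev E3 := EuclideanSpace ℝ (Fin 3)

/-- The determinant of `b - a`, `c - a`, `d - a`. -/
noncomputable def orient (a b c d : E3) : ℝ :=
  Matrix.det !![b 0 - a 0, b 1 - a 1, b 2 - a 2;
                c 0 - a 0, c 1 - a 1, c 2 - a 2;
                d 0 - a 0, d 1 - a 1, d 2 - a 2]

/-- every quadruple `i < j < k < l` is positively oriented -/
def Alternating {n : ℕ} (p : Fin n → E3) : Prop :=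
  ∀ i j k l : Fin n, i < j → j < k → k < l → 0 < orient (p i) (p j) (p k) (p l)

lemma sum_zero (a b c d e : E3) :
    orient b c d e - orient a c d e + orient a b d e - orient a b c e + orient a b c d = 0 := by
  simp only [orient, Matrix.det_fin_three, Matrix.of_apply, Matrix.cons_val', Matrix.cons_val_zero,
    Matrix.cons_val_one, Matrix.cons_val_fin_one, Matrix.cons_val]
  ring

lemma vec_zero (a b c d e : E3) :
    orient b c d e • a - orient a c d e • b + orient a b d e • c - orient a b c e • d +
      orient a b c d • e = 0 := by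
  ext i
  simp only [orient, Matrix.det_fin_three, Matrix.of_apply, Matrix.cons_val', Matrix.cons_val_zero,
    Matrix.cons_val_one, Matrix.cons_val_fin_one, Matrix.cons_val, PiLp.add_apply, PiLp.sub_apply,
    PiLp.smul_apply, smul_eq_mul, PiLp.zero_apply]
  fin_cases i <;> simp <;> ring

/-- the crossing point -/
lemma crossing (a b c d e : E3) (h1 : 0 < orient b c d e) (h2 : 0 < orient a c d e)
    (h3 : 0 < orient a b d e) (h4 : 0 < orient a b c e) (h5 : 0 < orient a b c d) :
    ∃ x y s t u : ℝ, 0 < x ∧ 0 < y ∧ x + y = 1 ∧ 0 < s ∧ 0 < t ∧ 0 < u ∧ s + t + u = 1 ∧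
      x • b + y • d = s • a + t • c + u • e := by
  set A := orient b c d e
  set B := orient a c d e
  set C := orient a b d e
  set D := orient a b c e
  set E := orient a b c d
  have hs : A - B + C - D + E = 0 := sum_zero a b c d e
  have hv : A • a - B • b + C • c - D • d + E • e = 0 := vec_zero a b c d e
  have hS : 0 < B + D := by linarith
  refine ⟨B / (B + D), D / (B + D), A / (B + D), C / (B + D), E / (B + D), by positivity,
    by positivity, by field_simp, by positivity, by positivity, by positivity, ?_, ?_⟩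
  · field_simp; linarith
  · have h6 : B • b + D • d = A • a + C • c + E • e := by
      have : A • a + C • c + E • e - (B • b + D • d) = 0 := by
        rw [← hv]; abel
      exact (sub_eq_zero.1 this).symm
    have h7 : (B + D)⁻¹ • (B • b + D • d) = (B + D)⁻¹ • (A • a + C • c + E • e) := by rw [h6]
    simp only [smul_add, smul_smul] at h7
    simp only [div_eq_inv_mul]
    exact h7

lemma orient_zero1 (a b c d : E3) (x y : ℝ) (h : x + y = 1) (ha : a = x • b + y • d) :
    orient a b c d = 0 := by
  have hy : y = 1 - x := by linarith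
  subst hy
  subst ha
  simp only [orient, Matrix.det_fin_three, Matrix.of_apply, Matrix.cons_val', Matrix.cons_val_zero,
    Matrix.cons_val_one, Matrix.cons_val_fin_one, Matrix.cons_val, PiLp.add_apply,
    PiLp.smul_apply, smul_eq_mul]
  ring

lemma orient_zero2 (a b c d : E3) (x y : ℝ) (h : x + y = 1) (hc : c = x • b + y • d) :
    orient a b c d = 0 := by
  have hy : y = 1 - x := by linarith
  subst hy
  subst hc
  simp only [orient, Matrix.det_fin_three, Matrix.of_apply, Matrix.cons_val', Matrix.cons_val_zero,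
    Matrix.cons_val_one, Matrix.cons_val_fin_one, Matrix.cons_val, PiLp.add_apply,
    PiLp.smul_apply, smul_eq_mul]
  ring

lemma orient_zero3 (b c d e : E3) (x y : ℝ) (h : x + y = 1) (he : e = x • b + y • d) :
    orient b c d e = 0 := by
  have hy : y = 1 - x := by linarith
  subst hy
  subst he
  simp only [orient, Matrix.det_fin_three, Matrix.of_apply, Matrix.cons_val', Matrix.cons_val_zero,
    Matrix.cons_val_one, Matrix.cons_val_fin_one, Matrix.cons_val, PiLp.add_apply,
    PiLp.smul_apply, smul_eq_mul]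
  ring

/-- the triangle with vertices `p i`, `i ∈ T` -/
def tri {n : ℕ} (p : Fin n → E3) (T : Finset (Fin n)) : Set E3 :=
  convexHull ℝ (p '' (T : Set (Fin n)))

/-- almost disjoint triangles -/
def AlmostDisjoint {n : ℕ} (p : Fin n → E3) (F : Finset (Finset (Fin n))) : Prop :=
  ∀ T ∈ F, ∀ T' ∈ F, T ≠ T' →
    tri p T ∩ tri p T' = ∅ ∨ ∃ x, x ∈ T ∧ x ∈ T' ∧ tri p T ∩ tri p T' = {p x}

lemma vertex_mem {n : ℕ} (p : Fin n → E3) (T : Finset (Fin n)) (x : Fin n) (hx : x ∈ T) :
    p x ∈ tri p T :=
  subset_convexHull ℝ _ ⟨x, by exact_mod_cast hx, rfl⟩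

lemma share {n : ℕ} (p : Fin n → E3) (hp : Function.Injective p) (F : Finset (Finset (Fin n)))
    (hF : AlmostDisjoint p F) (T T' : Finset (Fin n)) (hT : T ∈ F) (hT' : T' ∈ F)
    (x y : Fin n) (hxy : x ≠ y) (h1 : x ∈ T) (h2 : x ∈ T') (h3 : y ∈ T) (h4 : y ∈ T') : T = T' := by
  by_contra hne
  have hx : p x ∈ tri p T ∩ tri p T' := ⟨vertex_mem p T x h1, vertex_mem p T' x h2⟩
  have hy : p y ∈ tri p T ∩ tri p T' := ⟨vertex_mem p T y h3, vertex_mem p T' y h4⟩
  rcases hF T hT T' hT' hne with h | ⟨z, _, _, h⟩
  · rw [h] at hx; exact hx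
  · rw [h] at hx hy
    simp only [Set.mem_singleton_iff] at hx hy
    exact hxy (hp (hx.trans hy.symm))

lemma no_cross {n : ℕ} (p : Fin n → E3) (hp : Alternating p) (F : Finset (Finset (Fin n)))
    (hF : AlmostDisjoint p F) (a b c d e : Fin n) (hab : a < b) (hbc : b < c) (hcd : c < d)
    (hde : d < e) (T' : Finset (Fin n)) (hT : ({a, c, e} : Finset (Fin n)) ∈ F) (hT' : T' ∈ F)
    (hb : b ∈ T') (hd : d ∈ T') : False := by
  classical
  have o1 := hp b c d e hbc hcd hde
  have o2 := hp a c d e (hab.trans hbc) hcd hde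
  have o3 := hp a b d e hab (hbc.trans hcd) hde
  have o4 := hp a b c e hab hbc (hcd.trans hde)
  have o5 := hp a b c d hab hbc hcd
  obtain ⟨x, y, s, t, u, hx, hy, hxy, hs, ht, hu, hstu, heq⟩ :=
    crossing (p a) (p b) (p c) (p d) (p e) o1 o2 o3 o4 o5
  have hz1 : x • p b + y • p d ∈ tri p T' :=
    (convex_convexHull ℝ _) (vertex_mem p T' b hb) (vertex_mem p T' d hd) hx.le hy.le hxy
  have hz2 : x • p b + y • p d ∈ tri p ({a, c, e} : Finset (Fin n)) := by
    rw [heq]
    have := (convex_convexHull ℝ (p '' (({a, c, e} : Finset (Fin n)) : Set (Fin n)))).sum_mem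
      (t := (univ : Finset (Fin 3))) (w := ![s, t, u]) (z := ![p a, p c, p e])
      (by intro i _; fin_cases i <;> simp [hs.le, ht.le, hu.le])
      (by simp [Fin.sum_univ_three, hstu])
      (by
        intro i _
        fin_cases i
        · exact vertex_mem p _ a (by simp)
        · exact vertex_mem p _ c (by simp)
        · exact vertex_mem p _ e (by simp))
    simpa [Fin.sum_univ_three, tri] using this
  have hne : ({a, c, e} : Finset (Fin n)) ≠ T' := by
    intro h
    rw [← h] at hb
    simp only [mem_insert, mem_singleton] at hb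
    rcases hb with h | h | h
    · exact hab.ne' h
    · exact hbc.ne h
    · exact (hbc.trans (hcd.trans hde)).ne h
  rcases hF _ hT _ hT' hne with h | ⟨v, hv, _, h⟩
  · have : x • p b + y • p d ∈ tri p ({a, c, e} : Finset (Fin n)) ∩ tri p T' := ⟨hz2, hz1⟩
    rw [h] at this
    exact this
  · have : x • p b + y • p d ∈ tri p ({a, c, e} : Finset (Fin n)) ∩ tri p T' := ⟨hz2, hz1⟩
    rw [h] at this
    simp only [Set.mem_singleton_iff] at this
    simp only [mem_insert, mem_singleton] at hv
    rcases hv with rfl | rfl | rfl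
    · rw [orient_zero1 _ _ _ _ x y hxy this.symm] at o5
      exact lt_irrefl _ o5
    · rw [orient_zero2 _ _ _ _ x y hxy this.symm] at o5
      exact lt_irrefl _ o5
    · rw [orient_zero3 _ _ _ _ x y hxy this.symm] at o1
      exact lt_irrefl _ o1

/-- points on the moment curve -/
lemma moment {n : ℕ} (t : Fin n → ℝ) (ht : StrictMono t) :
    Alternating (fun i => (!₂[t i, t i ^ 2, t i ^ 3] : E3)) := by
  intro i j k l hij hjk hkl
  have h1 := ht hij
  have h2 := ht hjk
  have h3 := ht hkl
  have : orient (!₂[t i, t i ^ 2, t i ^ 3] : E3) (!₂[t j, t j ^ 2, t j ^ 3] : E3)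
      (!₂[t k, t k ^ 2, t k ^ 3] : E3) (!₂[t l, t l ^ 2, t l ^ 3] : E3) =
      (t j - t i) * (t k - t i) * (t l - t i) * (t k - t j) * (t l - t j) * (t l - t k) := by
    simp [orient, Matrix.det_fin_three]
    ring
  rw [this]
  have a1 : 0 < t j - t i := by linarith
  have a2 : 0 < t k - t i := by linarith
  have a3 : 0 < t l - t i := by linarith
  have a4 : 0 < t k - t j := by linarith
  have a5 : 0 < t l - t j := by linarith
  have a6 : 0 < t l - t k := by linarith
  positivity

end Pool.Agent.Helper988.AD
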